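import Mathlib
import Pool.Agent.BBP.Assembly

/-!
# No BBP-type formula with simple poles for `π` in the bases `10 ^ k`
-/

open scoped Polynomial

namespace Pool.Agent.Results.MP_57632f_nt.NoBBP

/-- The values of the BBP-type series of degree one in the bases `10 ^ k`: all sums
`∑ p(m) / (q(m) 10^(k m))`, `m = 0, 1, 2, …`, where `k ≥ 1`, the coefficients of the polynomials `p`
and `q ≠ 0` are algebraic numbers and the zeros of `q` are simple, rational and different from
`0, 1, 2, …`. -/
def bbpValues : Set ℂ :=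
  {s | ∃ (k : ℕ) (p q : ℂ[X]), 0 < k ∧ (∀ i, IsAlgebraic ℚ (p.coeff i)) ∧
    (∀ i, IsAlgebraic ℚ (q.coeff i)) ∧ q ≠ 0 ∧ q.roots.Nodup ∧
    (∀ z ∈ q.roots, ∃ r : ℚ, z = (r : ℂ) ∧ ∀ m : ℕ, r ≠ (m : ℚ)) ∧
    HasSum (fun m : ℕ => p.eval (m : ℂ) / (q.eval (m : ℂ) * 10 ^ (k * m))) s}

/-- `π` does not belong to the vector space over the field of algebraic numbers generated by `1` and
the values of all BBP-type series of degree one in the bases `10, 100, 1000, …`. -/
theorem result :
    (Real.pi : ℂ) ∉ Submodule.span (algebraicClosure ℚ ℂ) ({1} ∪ bbpValues) :=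
  Pool.Agent.BBP.thm_Span

end Pool.Agent.Results.MP_57632f_nt.NoBBP
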